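import Pool.Agent.helper12.TY.Spec

/-!
# Row ty:YDC (MP_baa4d7_al): chains of a group with a normal subgroup of index `p`
-/

set_option autoImplicit false

namespace Pool.Agent.TY

open Pool.Agent.helper58.DC Pool.Agent.DI Pool.Agent.GR Pool.Agent.OB Pool.Agent.TZ

theorem YDC_nrm_le {Γ : Type} [Group Γ] (C : Finset (Subgroup Γ)) (Q : Subgroup Γ) (hQ : Q ∈ C) :
    nrm C ≤ nz Q := by
  unfold nrm
  exact iInf₂_le Q hQ

/-- Changing `M` does not change `cSum` if the normaliser of the smallest term is contained in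
both groups. -/
theorem YDC_M {Γ : Type} [Group Γ] (p : ℕ) (L Q M M' : Subgroup Γ) (g : Subgroup Γ → ℤ)
    (h : nz Q ≤ M) (h' : nz Q ≤ M') : cSum p L Q M g = cSum p L Q M' g := by
  unfold cSum
  refine finsum_congr fun C => finsum_congr fun hC => ?_
  have h1 : nrm C ≤ nz Q := YDC_nrm_le C Q hC.mem
  rw [inf_eq_right.2 (h1.trans h), inf_eq_right.2 (h1.trans h')]

theorem YDC_step (hA3 : Pool.Agent.DI.A3_stmt) (hA9 : Pool.Agent.DI.A9_stmt)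
    (hA10 : Pool.Agent.DI.A10_stmt) (hA11 : Pool.Agent.DI.A11_stmt)
    (Γ : Type) [Group Γ] [Finite Γ] (p : ℕ) [Fact p.Prime] (G : Subgroup Γ)
    (g : Subgroup Γ → ℤ) (hG : G.Normal) (hab : ∀ x y : Γ, x * y * x⁻¹ * y⁻¹ ∈ G)
    (Q : Subgroup Γ) (hQ : IsPGroup p Q) (hQG : Q ⊓ G = ⊥) :
    cSum p ⊤ Q ⊤ g = cSum p (G ⊓ cz Q) ⊥ (cz Q) g -
      ∑ᶠ Q' ∈ {Q' : Subgroup Γ | Q < Q' ∧ Q' ≤ cz Q ∧ IsPGroup p Q' ∧ Q' ⊓ G = ⊥},
        cSum p ⊤ Q' ⊤ g := by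
  have h9 := (hA9 Γ G Q hG hab hQG).1
  have e1 : cSum p ⊤ Q ⊤ g = cSum p (cz Q) Q ⊤ g := by
    rw [hA3 Γ p ⊤ Q ⊤ g, top_inf_eq, h9]
  have e2 := hA10 Γ p G (cz Q) Q ⊤ g hG hQ hQG
  have e3 := hA11 Γ p G Q ⊤ g hG hab hQ hQG
  rw [top_inf_eq] at e3
  rw [e1, e2, e3]
  congr 1
  refine finsum_congr fun Q' => finsum_congr fun hQ' => ?_
  obtain ⟨hlt, -, -, hQ'G⟩ := hQ'
  have h9' := (hA9 Γ G Q' hG hab hQ'G).1
  have hcz : cz Q' ≤ cz Q := Subgroup.centralizer_le (by exact_mod_cast hlt.le)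
  have hle : nz Q' ≤ cz Q := by rw [h9']; exact hcz
  have e4 : (⊤ : Subgroup Γ) ⊓ nz Q = nz Q := top_inf_eq _
  have e5 : (⊤ : Subgroup Γ) ⊓ nz Q' = nz Q' := top_inf_eq _
  rw [hA3 Γ p (cz Q) Q' (⊤ ⊓ nz Q) g, inf_eq_right.2 hle, hA3 Γ p ⊤ Q' ⊤ g, e4, e5]
  apply YDC_M
  · rw [h9]; exact hle
  · exact le_top

/-- commutators are in a normal subgroup of prime index -/
theorem YDC_comm {Γ : Type} [Group Γ] (p : ℕ) [Fact p.Prime] (G' : Subgroup Γ) (hN : G'.Normal)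
    (hidx : G'.index = p) (x y : Γ) : x * y * x⁻¹ * y⁻¹ ∈ G' := by
  haveI := hN
  have hcard : Nat.card (Γ ⧸ G') = p := hidx
  haveI : IsCyclic (Γ ⧸ G') := isCyclic_of_prime_card hcard
  have hc : ∀ a b : Γ ⧸ G', a * b = b * a := (IsCyclic.commGroup (α := Γ ⧸ G')).mul_comm
  rw [← QuotientGroup.eq_one_iff]
  rw [QuotientGroup.mk_mul, QuotientGroup.mk_mul, QuotientGroup.mk_mul, QuotientGroup.mk_inv,
    QuotientGroup.mk_inv, hc (x : Γ ⧸ G') (y : Γ ⧸ G'), mul_inv_cancel_right, mul_inv_cancel]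

/-- a subgroup which meets the normal subgroup trivially has order dividing the index -/
theorem YDC_card {Γ : Type} [Group Γ] (G' Q : Subgroup Γ) (hN : G'.Normal)
    (hQ : Q ⊓ G' = ⊥) : Nat.card Q ∣ G'.index := by
  haveI := hN
  have h1 : G'.relIndex Q ∣ G'.index := Subgroup.relIndex_dvd_index_of_normal G' Q
  rw [← Subgroup.inf_relIndex_right, inf_comm, hQ, Subgroup.relIndex_bot_left] at h1
  exact h1

theorem YDC (hA3 : Pool.Agent.DI.A3_stmt) (hA9 : Pool.Agent.DI.A9_stmt) (hA10 : Pool.Agent.DI.A10_stmt) (hA11 : Pool.Agent.DI.A11_stmt) : YDC_stmt := by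
  intro Γ _ _ p _ G' g hN hidx
  have hab : ∀ x y : Γ, x * y * x⁻¹ * y⁻¹ ∈ G' := YDC_comm p G' hN hidx
  have hp : p.Prime := Fact.out
  rw [YDC_step hA3 hA9 hA10 hA11 Γ p G' g hN hab ⊥ IsPGroup.of_bot (bot_inf_eq _)]
  have hcz : cz (⊥ : Subgroup Γ) = ⊤ := by
    rw [eq_top_iff]
    intro x _
    rw [Subgroup.mem_centralizer_iff]
    intro y hy
    have : y = 1 := by simpa using hy
    subst this
    simp
  rw [hcz, inf_top_eq]
  have hset : {Q' : Subgroup Γ | ⊥ < Q' ∧ Q' ≤ ⊤ ∧ IsPGroup p Q' ∧ Q' ⊓ G' = ⊥} = QQ p G' := by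
    ext Q
    unfold QQ
    simp only [Set.mem_setOf_eq, le_top, true_and, bot_lt_iff_ne_bot]
  rw [hset]
  congr 1
  refine finsum_congr fun Q => finsum_congr fun hQ => ?_
  obtain ⟨hne, hpg, hQG⟩ := hQ
  rw [YDC_step hA3 hA9 hA10 hA11 Γ p G' g hN hab Q hpg hQG]
  have hz : ∑ᶠ Q' ∈ {Q' : Subgroup Γ | Q < Q' ∧ Q' ≤ cz Q ∧ IsPGroup p Q' ∧ Q' ⊓ G' = ⊥},
      cSum p ⊤ Q' ⊤ g = 0 := by
    apply finsum_mem_eq_zero_of_forall_eq_zero
    rintro Q' ⟨hlt, -, -, hQ'G⟩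
    exfalso
    have h1 : Nat.card Q = p := by
      have h2 := YDC_card G' Q hN hQG
      rw [hidx] at h2
      rcases (Nat.dvd_prime hp).1 h2 with h3 | h3
      · exact absurd (Subgroup.card_eq_one.1 h3) hne
      · exact h3
    have h2 : Nat.card Q' ≤ p := by
      have h3 := YDC_card G' Q' hN hQ'G
      rw [hidx] at h3
      exact Nat.le_of_dvd hp.pos h3
    exact hlt.ne (Subgroup.eq_of_le_of_card_ge hlt.le (by rw [h1]; exact h2))
  rw [hz, sub_zero]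

end Pool.Agent.TY
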